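import Mathlib
import Pool.Agent.H958.RO.Stm

/-!
# Project RO: elimination
-/

set_option autoImplicit false

namespace Pool.Agent.H84.RO.Elim

open Finset
open scoped Classical
open Pool.Agent.H958.RO
open Pool.Agent.W830.RD (Om gle Pr Rlz)

theorem ic_reverse {n : ℕ} (bl : Fin n → ℕ) {G : SimpleGraph (Fin n)} {a b : Fin n}
    (p : G.Walk a b) : ic bl p.reverse = ic bl p := by
  unfold ic
  rw [SimpleGraph.Walk.darts_reverse, List.filter_reverse, List.length_reverse, List.filter_map,
    List.length_map]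
  congr 1
  apply List.filter_congr
  intro d _
  simp only [Function.comp, SimpleGraph.Dart.symm_toProd, Prod.fst_swap, Prod.snd_swap]
  rw [decide_eq_decide]
  exact ne_comm

theorem near_symm {n : ℕ} {E : Finset (Fin n × Fin n)} {bl : Fin n → ℕ} {S : Finset (Fin n)}
    {k : ℕ} {a b : Fin n} (h : Near E bl S k a b) : Near E bl S k b a := by
  obtain ⟨p, hp⟩ := h
  exact ⟨p.reverse, by rw [ic_reverse]; exact hp⟩

theorem near_refl {n : ℕ} (E : Finset (Fin n × Fin n)) (bl : Fin n → ℕ) (S : Finset (Fin n))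
    (k : ℕ) (a : Fin n) : Near E bl S k a a :=
  ⟨SimpleGraph.Walk.nil, by unfold ic; simp⟩

theorem dg_mono {n : ℕ} (E : Finset (Fin n × Fin n)) {A B : Finset (Fin n)} (h : A ⊆ B)
    (v : Fin n) : dg E A v ≤ dg E B v := by
  unfold dg
  exact Finset.card_le_card (Finset.filter_subset_filter _ h)

theorem claim (h1 : S_COUNT) (h2 : S_LEAF) (h3 : S_BALL) (n : ℕ) (E : Finset (Fin n × Fin n))
    (bl : Fin n → ℕ) (N : Finset (Fin n)) (d : ℕ) (hE : E ⊆ Om n)
    (hN : ∀ S ⊆ N, S.Nonempty → ∀ x : ℕ, 1 ≤ x → (res E S).card = S.card + x →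
      ¬ KIn E bl S ((6 * d + 2) * x)) :
    ∀ m : ℕ, ∀ S ⊆ N, S.card = m →
      ∃ Y ⊆ S, Forest E (S \ Y) ∧ ∀ y ∈ Y, ∀ y' ∈ Y, y ≠ y' → ¬ Near E bl S d y y' := by
  intro m
  induction m using Nat.strong_induction_on with
  | _ m ih =>
    intro S hS hm
    rcases S.eq_empty_or_nonempty with hS0 | hSne
    · refine ⟨∅, Finset.empty_subset _, ?_, fun y hy => absurd hy (Finset.notMem_empty y)⟩
      intro B hB hBne
      obtain ⟨b, hb⟩ := hBne
      have := hB hb
      rw [hS0] at this
      simp at this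
    by_cases hleaf : ∃ v ∈ S, dg E S v ≤ 1
    · obtain ⟨v, hv, hdv⟩ := hleaf
      obtain ⟨Y, hY, hF, hfar⟩ := ih (S.erase v).card (by
        rw [← hm]; exact Finset.card_erase_lt_of_mem hv) (S.erase v)
        ((Finset.erase_subset v S).trans hS) rfl
      refine ⟨Y, hY.trans (Finset.erase_subset v S), ?_, ?_⟩
      · intro B hB hBne
        by_cases hvB : v ∈ B
        · exact ⟨v, hvB, (dg_mono E (hB.trans Finset.sdiff_subset) v).trans hdv⟩
        · apply hF B _ hBne
          intro w hw
          have h4 := Finset.mem_sdiff.1 (hB hw)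
          refine Finset.mem_sdiff.2 ⟨Finset.mem_erase.2 ⟨?_, h4.1⟩, h4.2⟩
          rintro rfl
          exact hvB hw
      · intro y hy y' hy' hne hnear
        exact hfar y hy y' hy' hne (h2 n E bl S d v y y' hdv (Finset.ne_of_mem_erase (hY hy))
          (Finset.ne_of_mem_erase (hY hy')) hnear)
    · push Not at hleaf
      obtain ⟨y, hyS, hy⟩ : ∃ y ∈ S, ∀ w ∈ S, Near E bl S d y w → dg E S w ≤ 2 := by
        by_contra hcon
        push Not at hcon
        obtain ⟨x, hx, hx1, hx2⟩ := h1 n E bl S d hE hSne (fun v hv => hleaf v hv) (by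
          intro v hv
          obtain ⟨w, hw, hw1, hw2⟩ := hcon v hv
          exact ⟨w, hw, hw2, hw1⟩)
        exact hN S hS hSne x hx hx1 hx2
      obtain ⟨ha, hb⟩ := h3 n E bl S d y hy
      set S' := S.filter (fun w => ¬ Near E bl S d y w) with hS'
      have hyS' : y ∉ S' := by
        intro h
        exact (Finset.mem_filter.1 h).2 (near_refl E bl S d y)
      have hS'S : S' ⊆ S := Finset.filter_subset _ _
      have hcard : S'.card < m := by
        rw [← hm]
        exact Finset.card_lt_card ⟨hS'S, fun h => hyS' (h hyS)⟩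
      obtain ⟨Y', hY', hF, hfar⟩ := ih S'.card hcard S' (hS'S.trans hS) rfl
      refine ⟨insert y Y', ?_, ?_, ?_⟩
      · intro w hw
        rcases Finset.mem_insert.1 hw with rfl | hw
        · exact hyS
        · exact hS'S (hY' hw)
      · intro B hB hBne
        by_contra hcon
        push Not at hcon
        have hBS : B ⊆ S := hB.trans Finset.sdiff_subset
        have hnot : ¬ ∃ w ∈ B, Near E bl S d y w := by
          intro hex
          have hyB := ha B hBS (fun v hv => hcon v hv) hex
          exact (Finset.mem_sdiff.1 (hB hyB)).2 (Finset.mem_insert_self y Y')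
        push Not at hnot
        obtain ⟨v, hv, hdv⟩ := hF B (by
          intro w hw
          refine Finset.mem_sdiff.2 ⟨Finset.mem_filter.2 ⟨hBS hw, hnot w hw⟩, fun hwY => ?_⟩
          exact (Finset.mem_sdiff.1 (hB hw)).2 (Finset.mem_insert_of_mem hwY)) hBne
        have := hcon v hv
        omega
      · intro y1 hy1 y2 hy2 hne hnear
        rcases Finset.mem_insert.1 hy1 with h5 | h5
        · rcases Finset.mem_insert.1 hy2 with h6 | h6
          · exact hne (h5.trans h6.symm)
          · rw [h5] at hnear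
            exact (Finset.mem_filter.1 (hY' h6)).2 hnear
        · rcases Finset.mem_insert.1 hy2 with h6 | h6
          · rw [h6] at hnear
            exact (Finset.mem_filter.1 (hY' h5)).2 (near_symm hnear)
          · exact hfar y1 h5 y2 h6 hne (hb y1 (hS'S (hY' h5)) y2 (hS'S (hY' h6))
              (Finset.mem_filter.1 (hY' h5)).2 (Finset.mem_filter.1 (hY' h6)).2 hnear)

theorem main (h1 : S_COUNT) (h2 : S_LEAF) (h3 : S_BALL) : S_ELIM := by
  intro n E bl N d hE hN
  exact claim h1 h2 h3 n E bl N d hE hN N.card N (Finset.Subset.refl N) rfl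

end Pool.Agent.H84.RO.Elim
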